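import Mathlib
import Pool.Agent.R366.HE.Main

set_option autoImplicit false

/-!
# Values of binary forms with bounded coefficients in the image of a polynomial of degree at least two
-/

namespace Pool.Agent.R366.HF

open Pool.Agent.R366.HE
open Polynomial
open scoped Classical

/-- few solutions of `F(y + u) - F(y) = v` -/
lemma card_shift (F : ℤ[X]) {e : ℕ} (h2 : 2 ≤ F.natDegree) (he : F.natDegree ≤ e) (u v : ℤ)
    (hu : u ≠ 0) (Y : Finset ℤ) (hY : ∀ y ∈ Y, F.eval (y + u) - F.eval y = v) : Y.card ≤ e := by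
  set R : ℤ[X] := F.comp (X + C u) - F - C v with hR
  have hev : ∀ y : ℤ, R.eval y = F.eval (y + u) - F.eval y - v := by
    intro y
    rw [hR]
    simp [eval_comp]
  have hR0 : R ≠ 0 := by
    intro h0
    have h3 : ∀ n : ℕ, F.eval (u * (n : ℤ)) = F.eval 0 + v * n := by
      intro n
      induction n with
      | zero => simp
      | succ n ih =>
        have h4 := hev (u * (n : ℤ))
        rw [h0, eval_zero] at h4
        push_cast
        rw [mul_add, mul_one]
        linarith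
    set G : ℤ[X] := F.comp (C u * X) - (C (F.eval 0) + C v * X) with hG
    have hG0 : G = 0 := by
      refine Polynomial.eq_zero_of_infinite_isRoot G ?_
      have hinf : (Set.range fun n : ℕ => (n : ℤ)).Infinite :=
        Set.infinite_range_of_injective Nat.cast_injective
      refine hinf.mono ?_
      rintro x ⟨n, rfl⟩
      change G.eval (n : ℤ) = 0
      rw [hG]
      simp only [eval_sub, eval_comp, eval_mul, eval_C, eval_X, eval_add]
      rw [h3 n]
      ring
    have h5 : F.comp (C u * X) = C (F.eval 0) + C v * X := sub_eq_zero.1 hG0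
    have h6 : (F.comp (C u * X)).natDegree = F.natDegree := by
      rw [natDegree_comp, natDegree_C_mul_X u hu, mul_one]
    have h7 : (C (F.eval 0) + C v * X : ℤ[X]).natDegree ≤ 1 := by
      refine (natDegree_add_le _ _).trans ?_
      rw [natDegree_C]
      exact max_le (by omega) ((natDegree_C_mul_le v X).trans natDegree_X_le)
    rw [← h5, h6] at h7
    omega
  have hdeg : R.natDegree ≤ e := by
    have h3 : (F.comp (X + C u)).natDegree = F.natDegree := by
      rw [natDegree_comp, natDegree_X_add_C, mul_one]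
    rw [hR]
    refine (natDegree_sub_le _ _).trans (max_le ((natDegree_sub_le _ _).trans (max_le ?_ he)) ?_)
    · rw [h3]
      exact he
    · rw [natDegree_C]
      omega
  have hsub : Y ⊆ R.roots.toFinset := by
    intro y hy
    rw [Multiset.mem_toFinset, mem_roots hR0]
    change R.eval y = 0
    rw [hev, hY y hy, sub_self]
  exact (Finset.card_le_card hsub).trans ((Multiset.toFinset_card_le _).trans
    ((card_roots' R).trans hdeg))

/-- **the differences of the values have few factorisations** -/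
theorem trick (e : ℕ) {η : ℝ} (hη : 0 < η) : ∃ C : ℝ, 0 < C ∧
    ∀ {ι κ : Type} (T : Finset ι) (val : ι → ℤ), Set.InjOn val (T : Set ι) →
    ∀ F : ℤ[X], 2 ≤ F.natDegree → F.natDegree ≤ e → ∀ m : ℤ, m ≠ 0 →
    (∀ c ∈ T, ∃ y : ℤ, F.eval y = m * val c) →
    ∀ (Δ : Finset κ) (w : κ → ℤ) (dif : ι → ι → κ),
    (∀ c ∈ T, ∀ c' ∈ T, c ≠ c' → dif c c' ∈ Δ ∧ w (dif c c') = val c - val c') →
    ∀ Q : ℝ, (∀ δ ∈ Δ, |(w δ : ℝ)| ≤ Q) → 0 ≤ Q →
    (T.card : ℝ) ≤ 1 + (C * Δ.card * (|(m : ℝ)| * Q) ^ η) ^ (1 / 2 : ℝ) := by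
  obtain ⟨C, hC, hdiv⟩ := Pool.Agent.H510R2.divisor_bound η hη
  refine ⟨(e + 1) * (2 * C), by positivity, ?_⟩
  intro ι κ T val hval F h2 he m hm hy Δ w dif hdif Q hQ hQ0
  choose! f hf using hy
  have hne : ∀ c ∈ T, ∀ c' ∈ T, c ≠ c' → f c ≠ f c' := by
    intro c hc c' hc' hcc h
    apply hcc
    apply hval hc hc'
    have h1 := hf c hc
    rw [h, hf c' hc'] at h1
    exact (mul_left_cancel₀ hm h1).symm
  set Δ' : Finset κ := Δ.filter fun δ => w δ ≠ 0 with hΔ'
  let U : κ → Finset ℤ := fun δ =>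
    (m * w δ).natAbs.divisors.image (fun d : ℕ => (d : ℤ)) ∪
      (m * w δ).natAbs.divisors.image (fun d : ℕ => -(d : ℤ))
  have hU : ∀ δ ∈ Δ', ((U δ).card : ℝ) ≤ 2 * (C * (|(m : ℝ)| * Q) ^ η) := by
    intro δ hδ
    rw [hΔ', Finset.mem_filter] at hδ
    have h1 : 1 ≤ (m * w δ).natAbs :=
      Nat.one_le_iff_ne_zero.2 (Int.natAbs_ne_zero.2 (mul_ne_zero hm hδ.2))
    have h3 := hdiv _ h1
    have h4 : ((m * w δ).natAbs : ℝ) ≤ |(m : ℝ)| * Q := by
      rw [Nat.cast_natAbs]
      push_cast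
      rw [abs_mul]
      exact mul_le_mul_of_nonneg_left (hQ δ hδ.1) (abs_nonneg _)
    have h5 : ((U δ).card : ℝ) ≤ 2 * ((m * w δ).natAbs.divisors.card : ℝ) := by
      have e1 : (U δ).card ≤ (m * w δ).natAbs.divisors.card + (m * w δ).natAbs.divisors.card :=
        (Finset.card_union_le _ _).trans (add_le_add Finset.card_image_le Finset.card_image_le)
      have e2 : ((U δ).card : ℝ) ≤ (m * w δ).natAbs.divisors.card + (m * w δ).natAbs.divisors.card := by
        exact_mod_cast e1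
      linarith
    have h6 : (((m * w δ).natAbs : ℕ) : ℝ) ^ η ≤ (|(m : ℝ)| * Q) ^ η :=
      Real.rpow_le_rpow (Nat.cast_nonneg _) h4 hη.le
    have h7 := mul_le_mul_of_nonneg_left h6 hC.le
    linarith
  let Ψ : ι × ι → (Σ _ : κ, ℤ) := fun p => ⟨dif p.1 p.2, f p.1 - f p.2⟩
  have hdiff : ∀ c ∈ T, ∀ c' ∈ T, c ≠ c' → F.eval (f c) - F.eval (f c') = m * w (dif c c') := by
    intro c hc c' hc' hcc
    rw [(hdif c hc c' hc' hcc).2, hf c hc, hf c' hc']
    ring
  have hw0 : ∀ c ∈ T, ∀ c' ∈ T, c ≠ c' → w (dif c c') ≠ 0 := by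
    intro c hc c' hc' hcc h
    rw [(hdif c hc c' hc' hcc).2] at h
    exact hcc (hval hc hc' (sub_eq_zero.1 h))
  have hmaps : ∀ p ∈ T.offDiag, Ψ p ∈ Δ'.sigma U := by
    intro p hp
    rw [Finset.mem_offDiag] at hp
    obtain ⟨hc, hc', hcc⟩ := hp
    have h0 := hw0 _ hc _ hc' hcc
    rw [Finset.mem_sigma, hΔ', Finset.mem_filter]
    refine ⟨⟨(hdif _ hc _ hc' hcc).1, h0⟩, ?_⟩
    have h1 : (f p.1 - f p.2) ∣ m * w (dif p.1 p.2) := by
      rw [← hdiff _ hc _ hc' hcc]
      exact Polynomial.sub_dvd_eval_sub _ _ _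
    have h3 : (f p.1 - f p.2).natAbs ∈ (m * w (dif p.1 p.2)).natAbs.divisors := by
      rw [Nat.mem_divisors]
      exact ⟨Int.natAbs_dvd_natAbs.2 h1, Int.natAbs_ne_zero.2 (mul_ne_zero hm h0)⟩
    rw [Finset.mem_union, Finset.mem_image, Finset.mem_image]
    rcases le_total 0 (f p.1 - f p.2) with h | h
    · left
      exact ⟨_, h3, Int.natAbs_of_nonneg h⟩
    · right
      refine ⟨_, h3, ?_⟩
      change -(((f p.1 - f p.2).natAbs : ℕ) : ℤ) = f p.1 - f p.2
      rw [Int.ofNat_natAbs_of_nonpos h]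
      ring
  have hfib : ∀ b ∈ Δ'.sigma U, (T.offDiag.filter fun p => Ψ p = b).card ≤ e + 1 := by
    rintro ⟨δ, u⟩ -
    by_cases hu : u = 0
    · have : (T.offDiag.filter fun p => Ψ p = ⟨δ, u⟩) = ∅ := by
        rw [Finset.filter_eq_empty_iff]
        intro p hp h
        rw [Finset.mem_offDiag] at hp
        have h1 : f p.1 - f p.2 = u := eq_of_heq (Sigma.mk.inj h).2
        exact hne _ hp.1 _ hp.2.1 hp.2.2 (sub_eq_zero.1 (h1.trans hu))
      rw [this, Finset.card_empty]
      omega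
    · have hinj : Set.InjOn (fun p : ι × ι => f p.2)
          (↑(T.offDiag.filter fun p => Ψ p = ⟨δ, u⟩) : Set (ι × ι)) := by
        intro p hp p' hp' h
        rw [Finset.mem_coe, Finset.mem_filter, Finset.mem_offDiag] at hp hp'
        have h1 : f p.1 - f p.2 = u := eq_of_heq (Sigma.mk.inj hp.2).2
        have h1' : f p'.1 - f p'.2 = u := eq_of_heq (Sigma.mk.inj hp'.2).2
        have h3 : f p.2 = f p'.2 := h
        have h4 : f p.1 = f p'.1 := by linarith
        have key : ∀ c ∈ T, ∀ c' ∈ T, f c = f c' → c = c' := by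
          intro c hc c' hc' hfc
          by_contra hcc
          exact hne c hc c' hc' hcc hfc
        exact Prod.ext (key _ hp.1.1 _ hp'.1.1 h4) (key _ hp.1.2.1 _ hp'.1.2.1 h3)
      rw [← Finset.card_image_of_injOn hinj]
      refine (card_shift F h2 he u (m * w δ) hu _ ?_).trans (by omega)
      intro y hy
      obtain ⟨p, hp, rfl⟩ := Finset.mem_image.1 hy
      rw [Finset.mem_filter, Finset.mem_offDiag] at hp
      have h1 : f p.1 - f p.2 = u := eq_of_heq (Sigma.mk.inj hp.2).2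
      have h3 : dif p.1 p.2 = δ := (Sigma.mk.inj hp.2).1
      have h4 := hdiff _ hp.1.1 _ hp.1.2.1 hp.1.2.2
      rw [h3] at h4
      have h5 : f p.2 + u = f p.1 := by linarith
      rw [h5]
      exact h4
  have hcount := Finset.card_le_mul_card_image_of_maps_to hmaps (e + 1) hfib
  rw [Finset.card_sigma, Finset.offDiag_card] at hcount
  set τ : ℝ := 2 * (C * (|(m : ℝ)| * Q) ^ η) with hτ
  have hτ0 : 0 ≤ τ := by positivity
  set M : ℝ := (T.card : ℝ) with hM
  have hMM : M * M - M ≤ (e + 1) * (Δ.card * τ) := by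
    have h1 : ((T.card * T.card - T.card : ℕ) : ℝ) ≤ (e + 1) * ∑ δ ∈ Δ', ((U δ).card : ℝ) := by
      exact_mod_cast hcount
    rw [Nat.cast_sub (Nat.le_mul_self _), Nat.cast_mul] at h1
    refine h1.trans (mul_le_mul_of_nonneg_left ?_ (by positivity))
    calc ∑ δ ∈ Δ', ((U δ).card : ℝ) ≤ ∑ δ ∈ Δ', τ := Finset.sum_le_sum hU
      _ = (Δ'.card : ℝ) * τ := by rw [Finset.sum_const, nsmul_eq_mul]
      _ ≤ _ := mul_le_mul_of_nonneg_right (by exact_mod_cast Finset.card_filter_le _ _) hτ0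
  have heq : (e + 1) * ((Δ.card : ℝ) * τ) = (e + 1) * (2 * C) * Δ.card * (|(m : ℝ)| * Q) ^ η := by
    rw [hτ]
    ring
  rw [heq] at hMM
  rw [← Real.sqrt_eq_rpow]
  by_cases h1 : M ≤ 1
  · have := Real.sqrt_nonneg ((e + 1) * (2 * C) * Δ.card * (|(m : ℝ)| * Q) ^ η)
    linarith
  · rw [not_le] at h1
    have h3 : (M - 1) ^ 2 ≤ (e + 1) * (2 * C) * Δ.card * (|(m : ℝ)| * Q) ^ η := by nlinarith
    have h4 := Real.le_sqrt_of_sq_le h3
    linarith

end Pool.Agent.R366.HF
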