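import Mathlib
import Pool.Agent.R366.HF.Core

set_option autoImplicit false

/-!
# One point
-/

namespace Pool.Agent.R366.HF

open Pool.Agent.R366.HE
open Polynomial
open scoped Classical

/-- **one point, larger than the coefficients** -/
lemma large (k e : ℕ) {ε : ℝ} (hε : 0 < ε) : ∃ K : ℝ, 0 < K ∧
    ∀ (s : Fin 2 → ℤ), IsCoprime (s 0) (s 1) → ∀ H : ℝ, 1 ≤ H → 2 * H < sz s → ∀ (F : ℤ[X]),
    2 ≤ F.natDegree → F.natDegree ≤ e → ∀ m : ℤ, m ≠ 0 → ∀ (T : Finset (Fin (k + 1) → ℤ)),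
    (∀ c ∈ T, (∃ y : ℤ, F.eval y = m * bin k c s) ∧ ∀ i, |(c i : ℝ)| ≤ H) →
    (T.card : ℝ) ≤ K * (|(m : ℝ)| * H * sz s) ^ ε * H ^ (((k : ℝ) + 1) / 2) := by
  set η : ℝ := 2 * ε / (k + 1) with hη
  have hη0 : 0 < η := by positivity
  obtain ⟨C, hC, htr⟩ := trick e hη0
  refine ⟨1 + (C * 5 ^ (k + 1) * (2 * (k + 1)) ^ η) ^ (1 / 2 : ℝ), by positivity, ?_⟩
  intro s hs H hH hHA F h2 he m hm T hT
  have hA1 := one_le_sz hs
  have hA0 : 0 < sz s := by linarith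
  have hH0 : 0 < H := by linarith
  have hm1 : (1 : ℝ) ≤ |(m : ℝ)| := by
    rw [← Int.cast_abs]
    exact_mod_cast Int.one_le_abs hm
  have hsmall : ∀ c ∈ T, ∀ c' ∈ T, ∀ i, |((c i - c' i : ℤ) : ℝ)| ≤ 2 * H := by
    intro c hc c' hc' i
    push_cast
    have e1 := (hT c hc).2 i
    have e2 := (hT c' hc').2 i
    calc |(c i : ℝ) - c' i| ≤ |(c i : ℝ)| + |(c' i : ℝ)| := abs_sub _ _
      _ ≤ 2 * H := by linarith
  have hinj : Set.InjOn (fun c => bin k c s) (T : Set (Fin (k + 1) → ℤ)) := by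
    intro c hc c' hc' h
    by_contra hcc
    have h0 : bin k (fun i => c i - c' i) s = 0 := by
      rw [bin_sub]
      exact sub_eq_zero.2 h
    obtain ⟨i, hi⟩ := short s hs _ (by
      intro h
      apply hcc
      funext i
      exact sub_eq_zero.1 (congrFun h i)) h0
    have h5 : sz s ≤ |((c i - c' i : ℤ) : ℝ)| := by
      unfold sz
      rw [← Int.cast_abs]
      exact_mod_cast hi
    have h6 := hsmall c hc c' hc' i
    linarith
  set N : ℕ := ⌊2 * H⌋₊ with hN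
  have hN2 : (N : ℝ) ≤ 2 * H := Nat.floor_le (by positivity)
  set Q : ℝ := (k + 1) * (2 * H * sz s ^ k) with hQ
  have hQ0 : 0 ≤ Q := by positivity
  set Δ : Finset (Fin (k + 1) → ℤ) :=
    Fintype.piFinset fun _ : Fin (k + 1) => Finset.Icc (-(N : ℤ)) N with hΔ
  have h1 := htr T (fun c => bin k c s) hinj F h2 he m hm (fun c hc => (hT c hc).1) Δ
    (fun δ => bin k δ s) (fun c c' i => c i - c' i) (by
      intro c hc c' hc' hcc
      refine ⟨?_, bin_sub k c c' s⟩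
      rw [hΔ, Fintype.mem_piFinset]
      intro i
      rw [Finset.mem_Icc, ← abs_le]
      have e3 := hsmall c hc c' hc' i
      have e4 : ((|c i - c' i|.toNat : ℕ) : ℝ) ≤ 2 * H := by
        have e5 : ((|c i - c' i|.toNat : ℤ) : ℝ) = |((c i - c' i : ℤ) : ℝ)| := by
          rw [Int.toNat_of_nonneg (abs_nonneg _)]
          push_cast
          rfl
        rw [← e5] at e3
        exact_mod_cast e3
      have e6 := Nat.le_floor e4
      rw [← hN] at e6
      have e7 := Int.self_le_toNat (|c i - c' i|)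
      have e8 : ((|c i - c' i|.toNat : ℕ) : ℤ) ≤ N := by exact_mod_cast e6
      linarith) Q (by
      intro δ hδ
      rw [hΔ, Fintype.mem_piFinset] at hδ
      have e1 : ∀ i, |(δ i : ℝ)| ≤ 2 * H := by
        intro i
        have e2 := hδ i
        rw [Finset.mem_Icc, ← abs_le] at e2
        have e3 : |(δ i : ℝ)| ≤ N := by exact_mod_cast e2
        exact e3.trans hN2
      exact bin_le (s := s) e1) hQ0
  have hΔcard : (Δ.card : ℝ) ≤ (5 * H) ^ (k + 1) := by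
    have h1 : Δ.card = (2 * N + 1) ^ (k + 1) := by
      rw [hΔ, Fintype.card_piFinset]
      simp only [Int.card_Icc, Finset.prod_const, Finset.card_univ, Fintype.card_fin]
      congr 1
      omega
    have h2 : (Δ.card : ℝ) = (2 * (N : ℝ) + 1) ^ (k + 1) := by exact_mod_cast h1
    rw [h2]
    exact pow_le_pow_left₀ (by positivity) (by linarith) _
  set Z : ℝ := |(m : ℝ)| * H * sz s with hZ
  have hZ1 : 1 ≤ Z := one_le_mul_of_one_le_of_one_le (one_le_mul_of_one_le_of_one_le hm1 hH) hA1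
  have hZ0 : 0 < Z := by linarith
  have hQZ : |(m : ℝ)| * Q ≤ (2 * (k + 1)) * Z ^ (k + 1) := by
    have e1 : |(m : ℝ)| * Q = (2 * (k + 1)) * ((|(m : ℝ)| * H) * sz s ^ k) := by
      rw [hQ]
      ring
    rw [e1]
    refine mul_le_mul_of_nonneg_left ?_ (by positivity)
    have e2 : 1 ≤ |(m : ℝ)| * H := one_le_mul_of_one_le_of_one_le hm1 hH
    calc (|(m : ℝ)| * H) * sz s ^ k ≤ (|(m : ℝ)| * H) ^ (k + 1) * sz s ^ (k + 1) := by
          refine mul_le_mul ?_ ?_ (by positivity) (by positivity)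
          · exact le_self_pow₀ e2 (by omega)
          · exact pow_le_pow_right₀ hA1 (by omega)
      _ = Z ^ (k + 1) := by rw [← mul_pow]
  have hQη : (|(m : ℝ)| * Q) ^ η ≤ (2 * (k + 1)) ^ η * Z ^ (2 * ε) := by
    calc (|(m : ℝ)| * Q) ^ η ≤ ((2 * (k + 1)) * Z ^ (k + 1)) ^ η :=
          Real.rpow_le_rpow (by positivity) hQZ hη0.le
      _ = (2 * (k + 1)) ^ η * (Z ^ (k + 1)) ^ η := Real.mul_rpow (by positivity) (by positivity)
      _ = _ := by
          congr 1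
          rw [← Real.rpow_natCast, ← Real.rpow_mul hZ0.le]
          congr 1
          rw [hη]
          push_cast
          field_simp
  refine h1.trans ?_
  have h3 : C * Δ.card * (|(m : ℝ)| * Q) ^ η ≤
      (C * 5 ^ (k + 1) * (2 * (k + 1)) ^ η) * (H ^ (k + 1) * Z ^ (2 * ε)) := by
    calc C * Δ.card * (|(m : ℝ)| * Q) ^ η ≤
        C * (5 * H) ^ (k + 1) * ((2 * (k + 1)) ^ η * Z ^ (2 * ε)) := by
          refine mul_le_mul (mul_le_mul_of_nonneg_left hΔcard hC.le) hQη (by positivity)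
            (by positivity)
      _ = _ := by rw [mul_pow]; ring
  have h4 : (C * Δ.card * (|(m : ℝ)| * Q) ^ η) ^ (1 / 2 : ℝ) ≤
      (C * 5 ^ (k + 1) * (2 * (k + 1)) ^ η) ^ (1 / 2 : ℝ) *
        (Z ^ ε * H ^ (((k : ℝ) + 1) / 2)) := by
    refine (Real.rpow_le_rpow (by positivity) h3 (by norm_num)).trans (le_of_eq ?_)
    have e1 : (H ^ (k + 1) * Z ^ (2 * ε)) ^ (1 / 2 : ℝ) = Z ^ ε * H ^ (((k : ℝ) + 1) / 2) := by
      rw [Real.mul_rpow (by positivity) (by positivity), ← Real.rpow_natCast H,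
        ← Real.rpow_mul hH0.le, ← Real.rpow_mul hZ0.le, mul_comm]
      congr 2
      · ring
      · push_cast; ring
    rw [Real.mul_rpow (by positivity) (by positivity : (0 : ℝ) ≤ H ^ (k + 1) * Z ^ (2 * ε)), e1]
  have h5 : 1 ≤ Z ^ ε * H ^ (((k : ℝ) + 1) / 2) :=
    one_le_mul_of_one_le_of_one_le (Real.one_le_rpow hZ1 hε.le)
      (Real.one_le_rpow hH (by positivity))
  calc 1 + (C * Δ.card * (|(m : ℝ)| * Q) ^ η) ^ (1 / 2 : ℝ) ≤
        1 * (Z ^ ε * H ^ (((k : ℝ) + 1) / 2)) + (C * 5 ^ (k + 1) * (2 * (k + 1)) ^ η) ^ (1 / 2 : ℝ) *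
        (Z ^ ε * H ^ (((k : ℝ) + 1) / 2)) := by linarith
    _ = _ := by ring

/-- **one point, not larger than the coefficients** -/
lemma small (k e : ℕ) {ε : ℝ} (hε : 0 < ε) : ∃ K : ℝ, 0 < K ∧
    ∀ (s : Fin 2 → ℤ), IsCoprime (s 0) (s 1) → ∀ H : ℝ, 1 ≤ H → sz s ≤ 2 * H → ∀ (F : ℤ[X]),
    2 ≤ F.natDegree → F.natDegree ≤ e → ∀ m : ℤ, m ≠ 0 → ∀ (T : Finset (Fin (k + 1) → ℤ)),
    (∀ c ∈ T, (∃ y : ℤ, F.eval y = m * bin k c s) ∧ ∀ i, |(c i : ℝ)| ≤ H) →
    (T.card : ℝ) ≤ K * (|(m : ℝ)| * H * sz s) ^ ε *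
      (H ^ ((k : ℝ) + 1 / 2) * (1 / sz s ^ ((k : ℝ) / 2))) := by
  set η : ℝ := 2 * ε / (k + 1) with hη
  have hη0 : 0 < η := by positivity
  obtain ⟨C, hC, htr⟩ := trick e hη0
  set K₁ : ℝ := 1 + (C * (5 * (k + 1)) * (2 * (k + 1)) ^ η) ^ (1 / 2 : ℝ) with hK₁
  refine ⟨(2 * k + 8) ^ k * K₁, by positivity, ?_⟩
  intro s hs H hH hAH F h2 he m hm T hT
  have hA1 := one_le_sz hs
  have hA0 : 0 < sz s := by linarith
  have hH0 : 0 < H := by linarith
  have hm1 : (1 : ℝ) ≤ |(m : ℝ)| := by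
    rw [← Int.cast_abs]
    exact_mod_cast Int.one_le_abs hm
  set L : ℝ := (k + 1) * (H * sz s ^ k) with hL
  have hW1 : 1 ≤ H * sz s ^ k := one_le_mul_of_one_le_of_one_le hH (one_le_pow₀ hA1)
  have hk0 : (0 : ℝ) ≤ k := Nat.cast_nonneg k
  have hL1 : 1 ≤ L := by nlinarith
  set N : ℕ := ⌊2 * L⌋₊ with hN
  have hN2 : (N : ℝ) ≤ 2 * L := Nat.floor_le (by positivity)
  set V : Finset ℤ := T.image fun c => bin k c s with hV
  have hVle : ∀ v ∈ V, |(v : ℝ)| ≤ L := by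
    intro v hv
    obtain ⟨c, hc, rfl⟩ := Finset.mem_image.1 hv
    exact bin_le (s := s) (hT c hc).2
  have h1 := htr V (fun v => v) (fun _ _ _ _ h => h) F h2 he m hm (by
      intro v hv
      obtain ⟨c, hc, rfl⟩ := Finset.mem_image.1 hv
      exact (hT c hc).1) (Finset.Icc (-(N : ℤ)) N) (fun δ => δ) (fun v v' => v - v') (by
      intro v hv v' hv' _
      refine ⟨?_, rfl⟩
      rw [Finset.mem_Icc, ← abs_le]
      have e3 : |((v - v' : ℤ) : ℝ)| ≤ 2 * L := by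
        push_cast
        have e1 := hVle v hv
        have e2 := hVle v' hv'
        calc |(v : ℝ) - v'| ≤ |(v : ℝ)| + |(v' : ℝ)| := abs_sub _ _
          _ ≤ 2 * L := by linarith
      have e4 : ((|v - v'|.toNat : ℕ) : ℝ) ≤ 2 * L := by
        have e5 : ((|v - v'|.toNat : ℤ) : ℝ) = |((v - v' : ℤ) : ℝ)| := by
          rw [Int.toNat_of_nonneg (abs_nonneg _)]
          push_cast
          rfl
        rw [← e5] at e3
        exact_mod_cast e3
      have e6 := Nat.le_floor e4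
      rw [← hN] at e6
      have e7 := Int.self_le_toNat (|v - v'|)
      have e8 : ((|v - v'|.toNat : ℕ) : ℤ) ≤ N := by exact_mod_cast e6
      linarith) (2 * L) (by
      intro δ hδ
      rw [Finset.mem_Icc, ← abs_le] at hδ
      have e3 : |(δ : ℝ)| ≤ N := by exact_mod_cast hδ
      exact e3.trans hN2) (by positivity)
  have hcardI : ((Finset.Icc (-(N : ℤ)) N).card : ℝ) ≤ 5 * L := by
    rw [Int.card_Icc]
    have e1 : ((N : ℤ) + 1 - -(N : ℤ)).toNat = 2 * N + 1 := by omega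
    rw [e1]
    push_cast
    linarith
  set Z : ℝ := |(m : ℝ)| * H * sz s with hZ
  have hZ1 : 1 ≤ Z := one_le_mul_of_one_le_of_one_le (one_le_mul_of_one_le_of_one_le hm1 hH) hA1
  have hZ0 : 0 < Z := by linarith
  have hQZ : |(m : ℝ)| * (2 * L) ≤ (2 * (k + 1)) * Z ^ (k + 1) := by
    have e1 : |(m : ℝ)| * (2 * L) = (2 * (k + 1)) * ((|(m : ℝ)| * H) * sz s ^ k) := by
      rw [hL]
      ring
    rw [e1]
    refine mul_le_mul_of_nonneg_left ?_ (by positivity)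
    have e2 : 1 ≤ |(m : ℝ)| * H := one_le_mul_of_one_le_of_one_le hm1 hH
    calc (|(m : ℝ)| * H) * sz s ^ k ≤ (|(m : ℝ)| * H) ^ (k + 1) * sz s ^ (k + 1) := by
          refine mul_le_mul ?_ ?_ (by positivity) (by positivity)
          · exact le_self_pow₀ e2 (by omega)
          · exact pow_le_pow_right₀ hA1 (by omega)
      _ = Z ^ (k + 1) := by rw [← mul_pow]
  have hQη : (|(m : ℝ)| * (2 * L)) ^ η ≤ (2 * (k + 1)) ^ η * Z ^ (2 * ε) := by
    calc (|(m : ℝ)| * (2 * L)) ^ η ≤ ((2 * (k + 1)) * Z ^ (k + 1)) ^ η :=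
          Real.rpow_le_rpow (by positivity) hQZ hη0.le
      _ = (2 * (k + 1)) ^ η * (Z ^ (k + 1)) ^ η := Real.mul_rpow (by positivity) (by positivity)
      _ = _ := by
          congr 1
          rw [← Real.rpow_natCast, ← Real.rpow_mul hZ0.le]
          congr 1
          rw [hη]
          push_cast
          field_simp
  have hVcard : (V.card : ℝ) ≤ K₁ * (Z ^ ε * (H * sz s ^ k) ^ (1 / 2 : ℝ)) := by
    refine h1.trans ?_
    have h3 : C * ((Finset.Icc (-(N : ℤ)) N).card : ℝ) * (|(m : ℝ)| * (2 * L)) ^ η ≤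
        (C * (5 * (k + 1)) * (2 * (k + 1)) ^ η) * ((H * sz s ^ k) * Z ^ (2 * ε)) := by
      calc C * ((Finset.Icc (-(N : ℤ)) N).card : ℝ) * (|(m : ℝ)| * (2 * L)) ^ η ≤
          C * (5 * L) * ((2 * (k + 1)) ^ η * Z ^ (2 * ε)) := by
            refine mul_le_mul (mul_le_mul_of_nonneg_left hcardI hC.le) hQη (by positivity)
              (by positivity)
        _ = _ := by rw [hL]; ring
    have h4 : (C * ((Finset.Icc (-(N : ℤ)) N).card : ℝ) * (|(m : ℝ)| * (2 * L)) ^ η) ^ (1 / 2 : ℝ) ≤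
        (C * (5 * (k + 1)) * (2 * (k + 1)) ^ η) ^ (1 / 2 : ℝ) *
          (Z ^ ε * (H * sz s ^ k) ^ (1 / 2 : ℝ)) := by
      refine (Real.rpow_le_rpow (by positivity) h3 (by norm_num)).trans (le_of_eq ?_)
      have e1 : ((H * sz s ^ k) * Z ^ (2 * ε)) ^ (1 / 2 : ℝ) =
          Z ^ ε * (H * sz s ^ k) ^ (1 / 2 : ℝ) := by
        rw [Real.mul_rpow (by positivity) (by positivity), ← Real.rpow_mul hZ0.le, mul_comm]
        congr 2
        ring
      rw [Real.mul_rpow (by positivity) (by positivity : (0 : ℝ) ≤ (H * sz s ^ k) * Z ^ (2 * ε)), e1]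
    have h5 : 1 ≤ Z ^ ε * (H * sz s ^ k) ^ (1 / 2 : ℝ) :=
      one_le_mul_of_one_le_of_one_le (Real.one_le_rpow hZ1 hε.le)
        (Real.one_le_rpow hW1 (by positivity))
    rw [hK₁, add_mul, one_mul]
    linarith
  have hfib : ∀ n ∈ V, ((T.filter fun c => bin k c s = n).card : ℝ) ≤
      ((2 * k + 8) * (H / sz s)) ^ k := by
    intro n _
    refine count_value s hs (A := sz s) rfl hA1 hAH n _ ?_
    intro c hc
    rw [Finset.mem_filter] at hc
    exact ⟨hc.2, (hT c hc.1).2⟩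
  have hcard : (T.card : ℝ) ≤ ((2 * k + 8) * (H / sz s)) ^ k * V.card := by
    rw [hV, Finset.card_eq_sum_card_image (fun c => bin k c s) T]
    push_cast
    calc ∑ n ∈ T.image (fun c => bin k c s), ((T.filter fun c => bin k c s = n).card : ℝ)
        ≤ ∑ n ∈ T.image (fun c => bin k c s), ((2 * (k : ℝ) + 8) * (H / sz s)) ^ k :=
          Finset.sum_le_sum hfib
      _ = _ := by
        rw [Finset.sum_const, nsmul_eq_mul]
        ring
  refine hcard.trans ((mul_le_mul_of_nonneg_left hVcard (by positivity)).trans (le_of_eq ?_))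
  have f1 : (H * sz s ^ k) ^ (1 / 2 : ℝ) = H ^ (1 / 2 : ℝ) * sz s ^ ((k : ℝ) / 2) := by
    rw [Real.mul_rpow hH0.le (by positivity), ← Real.rpow_natCast (sz s), ← Real.rpow_mul hA0.le]
    congr 2
    ring
  have f2 : sz s ^ k = sz s ^ ((k : ℝ) / 2) * sz s ^ ((k : ℝ) / 2) := by
    rw [← Real.rpow_add hA0, ← Real.rpow_natCast]
    congr 1
    ring
  have f3 : H ^ ((k : ℝ) + 1 / 2) = H ^ k * H ^ (1 / 2 : ℝ) := by
    rw [Real.rpow_add hH0, Real.rpow_natCast]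
  have g1 : sz s ^ ((k : ℝ) / 2) ≠ 0 := by positivity
  rw [mul_pow, div_pow, f1, f3, f2]
  field_simp

/-- **one point** -/
theorem one_root (k e : ℕ) {ε : ℝ} (hε : 0 < ε) : ∃ K : ℝ, 0 < K ∧
    ∀ (s : Fin 2 → ℤ), IsCoprime (s 0) (s 1) → ∀ H : ℝ, 1 ≤ H → ∀ (F : ℤ[X]),
    2 ≤ F.natDegree → F.natDegree ≤ e → ∀ m : ℤ, m ≠ 0 → ∀ (T : Finset (Fin (k + 1) → ℤ)),
    (∀ c ∈ T, (∃ y : ℤ, F.eval y = m * bin k c s) ∧ ∀ i, |(c i : ℝ)| ≤ H) →
    (T.card : ℝ) ≤ K * (|(m : ℝ)| * H * sz s) ^ ε *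
      (H ^ ((k : ℝ) + 1 / 2) * (1 / sz s ^ ((k : ℝ) / 2)) + H ^ (((k : ℝ) + 1) / 2)) := by
  obtain ⟨K₁, hK₁, h₁⟩ := large k e hε
  obtain ⟨K₂, hK₂, h₂⟩ := small k e hε
  refine ⟨K₁ + K₂, by positivity, ?_⟩
  intro s hs H hH F h2 he m hm T hT
  have hA1 := one_le_sz hs
  have hA0 : 0 < sz s := by linarith
  have hH0 : 0 < H := by linarith
  have e0 : 0 ≤ (|(m : ℝ)| * H * sz s) ^ ε := by positivity
  have e1 : 0 ≤ H ^ ((k : ℝ) + 1 / 2) * (1 / sz s ^ ((k : ℝ) / 2)) := by positivity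
  have e2 : 0 ≤ H ^ (((k : ℝ) + 1) / 2) := by positivity
  set Z := (|(m : ℝ)| * H * sz s) ^ ε
  set u := H ^ ((k : ℝ) + 1 / 2) * (1 / sz s ^ ((k : ℝ) / 2))
  set v := H ^ (((k : ℝ) + 1) / 2)
  have f1 : K₁ * Z * v ≤ (K₁ + K₂) * Z * (u + v) :=
    mul_le_mul (mul_le_mul_of_nonneg_right (by linarith) e0) (by linarith) e2 (by positivity)
  have f2 : K₂ * Z * u ≤ (K₁ + K₂) * Z * (u + v) :=
    mul_le_mul (mul_le_mul_of_nonneg_right (by linarith) e0) (by linarith) e1 (by positivity)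
  by_cases hlt : 2 * H < sz s
  · exact (h₁ s hs H hH hlt F h2 he m hm T hT).trans f1
  · exact (h₂ s hs H hH (not_lt.1 hlt) F h2 he m hm T hT).trans f2

end Pool.Agent.R366.HF
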