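import Mathlib
import Pool.Agent.R366.HF.One

set_option autoImplicit false

/-!
# Integral points
-/

namespace Pool.Agent.R366.HF

open Pool.Agent.R366.HE
open Polynomial
open scoped Classical

/-- **integral zeros of `F(x, y) - h(x)`, `h` small** -/
theorem family (k e : ℕ) (hk : 2 ≤ k) {ε : ℝ} (hε : 0 < ε) : ∃ C : ℝ, 0 < C ∧
    ∀ H X : ℝ, 1 ≤ H → 1 ≤ X → ∀ (F : ℤ → ℤ[X]) (P : Finset ((Fin (k + 1) → ℤ) × ℤ)),
    (∀ p ∈ P, (∀ i, |(p.1 i : ℝ)| ≤ H) ∧ |(p.2 : ℝ)| ≤ X ∧ 2 ≤ (F p.2).natDegree ∧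
      (F p.2).natDegree ≤ e ∧
      ∃ y : ℤ, (F p.2).eval y = ∑ i : Fin (k + 1), p.1 i * p.2 ^ (i : ℕ)) →
    (P.card : ℝ) ≤ C * (H * X) ^ ε * (H ^ ((k : ℝ) + 1 / 2) + H ^ (((k : ℝ) + 1) / 2) * X) := by
  obtain ⟨C, hC, h⟩ := one_root k e (ε := ε / 2) (by positivity)
  obtain ⟨C₂, hC₂, h₂⟩ := sum_int (e := 1 + ε / 2) (by linarith)
  refine ⟨C * (C₂ + 3), by positivity, fun H X hH hX F P hP => ?_⟩
  have hH0 : 0 < H := by linarith
  have hX0 : 0 < X := by linarith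
  set N : ℕ := ⌊X⌋₊ with hN
  have hNX : (N : ℝ) ≤ X := Nat.floor_le hX0.le
  have habs : ∀ x : ℤ, |(x : ℝ)| ≤ X ↔ |x| ≤ (N : ℤ) := by
    intro x
    rw [← Int.cast_abs, hN, ← Int.natCast_natAbs, Int.cast_natCast, Nat.cast_le,
      Nat.le_floor_iff hX0.le]
  have hbin : ∀ (c : Fin (k + 1) → ℤ) (x : ℤ), bin k c ![x, 1] =
      ∑ i : Fin (k + 1), c i * x ^ (i : ℕ) := by
    intro c x
    unfold bin
    simp
  set Z : Finset ℤ := Finset.Icc (-(N : ℤ)) N with hZ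
  have hmaps : ∀ p ∈ P, p.2 ∈ Z := by
    intro p hp
    obtain ⟨-, h1, -⟩ := hP p hp
    rw [hZ, Finset.mem_Icc, ← abs_le]
    exact (habs _).1 h1
  have hcop : ∀ x : ℤ, IsCoprime ((![x, 1] : Fin 2 → ℤ) 0) ((![x, 1] : Fin 2 → ℤ) 1) := by
    intro x
    simp [isCoprime_one_right]
  have hHX1 : 1 ≤ H * X := one_le_mul_of_one_le_of_one_le hH hX
  have hHX0 : 0 < H * X := by linarith
  have hone : ∀ x ∈ Z, ((P.filter fun p => p.2 = x).card : ℝ) ≤
      C * (H * X) ^ ε * (H ^ ((k : ℝ) + 1 / 2) * (1 / sz ![x, 1] ^ (1 + ε / 2)) +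
        H ^ (((k : ℝ) + 1) / 2)) := by
    intro x hx
    have hs1 := one_le_sz (hcop x)
    have hs0 : 0 < sz ![x, 1] := by linarith
    have e2 : sz ![x, 1] ≤ X := by
      rw [hZ, Finset.mem_Icc, ← abs_le] at hx
      have e4 := (habs x).2 hx
      have e5 : sz ![x, 1] = max |(x : ℝ)| 1 := by
        unfold sz
        simp
      rw [e5]
      exact max_le e4 hX
    by_cases hempty : (P.filter fun p => p.2 = x) = ∅
    · rw [hempty, Finset.card_empty, Nat.cast_zero]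
      positivity
    obtain ⟨p₀, hp₀⟩ := Finset.nonempty_iff_ne_empty.2 hempty
    rw [Finset.mem_filter] at hp₀
    obtain ⟨-, -, hd2, hde, -⟩ := hP p₀ hp₀.1
    rw [hp₀.2] at hd2 hde
    have hinj : Set.InjOn Prod.fst
        (↑(P.filter fun p => p.2 = x) : Set ((Fin (k + 1) → ℤ) × ℤ)) := by
      intro p hp p' hp' hpp
      have e1 := (Finset.mem_filter.1 (Finset.mem_coe.1 hp)).2
      have e2 := (Finset.mem_filter.1 (Finset.mem_coe.1 hp')).2
      exact Prod.ext hpp (e1.trans e2.symm)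
    rw [← Finset.card_image_of_injOn hinj]
    refine (h ![x, 1] (hcop x) H hH (F x) hd2 hde 1 one_ne_zero _ ?_).trans ?_
    · intro c hc
      obtain ⟨p, hp, rfl⟩ := Finset.mem_image.1 hc
      rw [Finset.mem_filter] at hp
      obtain ⟨g1, -, -, -, g5⟩ := hP p hp.1
      rw [hp.2] at g5
      rw [hbin, one_mul]
      exact ⟨g5, g1⟩
    · have e3 : (|((1 : ℤ) : ℝ)| * H * sz ![x, 1]) ^ (ε / 2) ≤ (H * X) ^ (ε / 2) := by
        refine Real.rpow_le_rpow (by positivity) ?_ (by positivity)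
        rw [Int.cast_one, abs_one, one_mul]
        exact mul_le_mul_of_nonneg_left e2 hH0.le
      have e1 : 1 / sz ![x, 1] ^ ((k : ℝ) / 2) ≤
          (H * X) ^ (ε / 2) * (1 / sz ![x, 1] ^ (1 + ε / 2)) := by
        have g1 : 1 / sz ![x, 1] ^ ((k : ℝ) / 2) ≤ 1 / sz ![x, 1] := by
          refine one_div_le_one_div_of_le hs0 ?_
          calc sz ![x, 1] = sz ![x, 1] ^ (1 : ℝ) := (Real.rpow_one _).symm
            _ ≤ _ := Real.rpow_le_rpow_of_exponent_le hs1 (by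
                have : (2 : ℝ) ≤ k := by exact_mod_cast hk
                linarith)
        have g2 : 1 / sz ![x, 1] = sz ![x, 1] ^ (ε / 2) * (1 / sz ![x, 1] ^ (1 + ε / 2)) := by
          rw [Real.rpow_add hs0, Real.rpow_one]
          have : sz ![x, 1] ^ (ε / 2) ≠ 0 := by positivity
          field_simp
        have g3 : sz ![x, 1] ^ (ε / 2) ≤ (H * X) ^ (ε / 2) := by
          refine Real.rpow_le_rpow hs0.le ?_ (by positivity)
          nlinarith
        refine g1.trans (g2.le.trans ?_)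
        exact mul_le_mul_of_nonneg_right g3 (by positivity)
      have e6 : (H * X) ^ ε = (H * X) ^ (ε / 2) * (H * X) ^ (ε / 2) := by
        rw [← Real.rpow_add hHX0]
        congr 1
        ring
      have e7 : 1 ≤ (H * X) ^ (ε / 2) := Real.one_le_rpow hHX1 (by positivity)
      have e8 : H ^ ((k : ℝ) + 1 / 2) * (1 / sz ![x, 1] ^ ((k : ℝ) / 2)) + H ^ (((k : ℝ) + 1) / 2) ≤
          (H * X) ^ (ε / 2) * (H ^ ((k : ℝ) + 1 / 2) * (1 / sz ![x, 1] ^ (1 + ε / 2)) +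
            H ^ (((k : ℝ) + 1) / 2)) := by
        have f1 := mul_le_mul_of_nonneg_left e1 (by positivity : 0 ≤ H ^ ((k : ℝ) + 1 / 2))
        have f2 : 0 < H ^ (((k : ℝ) + 1) / 2) := by positivity
        nlinarith
      calc C * (|((1 : ℤ) : ℝ)| * H * sz ![x, 1]) ^ (ε / 2) *
            (H ^ ((k : ℝ) + 1 / 2) * (1 / sz ![x, 1] ^ ((k : ℝ) / 2)) + H ^ (((k : ℝ) + 1) / 2))
          ≤ C * (H * X) ^ (ε / 2) * ((H * X) ^ (ε / 2) *
            (H ^ ((k : ℝ) + 1 / 2) * (1 / sz ![x, 1] ^ (1 + ε / 2)) + H ^ (((k : ℝ) + 1) / 2))) :=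
            mul_le_mul (mul_le_mul_of_nonneg_left e3 hC.le) e8 (by positivity) (by positivity)
        _ = _ := by rw [e6]; ring
  have h3 : (P.card : ℝ) = ∑ x ∈ Z, ((P.filter fun p => p.2 = x).card : ℝ) := by
    rw [Finset.card_eq_sum_card_fiberwise hmaps]
    push_cast
    rfl
  have hZcard : (Z.card : ℝ) ≤ 3 * X := by
    have h4 : Z.card = 2 * N + 1 := by
      rw [hZ, Int.card_Icc]
      omega
    rw [h4]
    push_cast
    linarith
  calc (P.card : ℝ) = ∑ x ∈ Z, ((P.filter fun p => p.2 = x).card : ℝ) := h3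
    _ ≤ ∑ x ∈ Z, C * (H * X) ^ ε * (H ^ ((k : ℝ) + 1 / 2) * (1 / sz ![x, 1] ^ (1 + ε / 2)) +
          H ^ (((k : ℝ) + 1) / 2)) := Finset.sum_le_sum hone
    _ = C * (H * X) ^ ε * (H ^ ((k : ℝ) + 1 / 2) * (∑ x ∈ Z, (1 / sz ![x, 1] ^ (1 + ε / 2))) +
          (Z.card : ℝ) * H ^ (((k : ℝ) + 1) / 2)) := by
        rw [← Finset.mul_sum, Finset.sum_add_distrib, ← Finset.mul_sum,
          Finset.sum_const, nsmul_eq_mul]
    _ ≤ C * (H * X) ^ ε * (H ^ ((k : ℝ) + 1 / 2) * C₂ + (3 * X) * H ^ (((k : ℝ) + 1) / 2)) := by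
        refine mul_le_mul_of_nonneg_left (add_le_add ?_ ?_) (by positivity)
        · exact mul_le_mul_of_nonneg_left (h₂ N) (by positivity)
        · exact mul_le_mul_of_nonneg_right hZcard (by positivity)
    _ ≤ C * (H * X) ^ ε * ((C₂ + 3) * (H ^ ((k : ℝ) + 1 / 2) + H ^ (((k : ℝ) + 1) / 2) * X)) := by
        have e1 : 0 ≤ H ^ ((k : ℝ) + 1 / 2) := by positivity
        have e2 : 0 ≤ H ^ (((k : ℝ) + 1) / 2) * X := by positivity
        refine mul_le_mul_of_nonneg_left ?_ (by positivity)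
        nlinarith
    _ = _ := by ring

end Pool.Agent.R366.HF
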