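import Mathlib
import Pool.Agent.R366.HF.Fam

set_option autoImplicit false

/-!
# Integral points on plane curves in a box
-/

namespace Pool.Agent.R366.HF

open Pool.Agent.R366.HE
open Polynomial
open scoped Classical

/-- the monomials of degree at most `d` in two variables -/
abbrev Mon (d : ℕ) : Type := {m : Fin (d + 1) × Fin (d + 1) // (m.1 : ℕ) + (m.2 : ℕ) ≤ d}

/-- the value of the polynomial with the coefficients `c` -/
def val (d : ℕ) (c : Mon d → ℤ) (x y : ℤ) : ℤ :=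
  ∑ m : Mon d, c m * x ^ (m.1.1 : ℕ) * y ^ (m.1.2 : ℕ)

/-- the monomials in `x` -/
def ux (d : ℕ) (i : Fin (d + 1)) : Mon d := ⟨(i, 0), by
  have := i.2
  simp only [Fin.val_zero]
  omega⟩

/-- the monomial `y ^ d` -/
def my (d : ℕ) : Mon d := ⟨(0, Fin.last d), by simp⟩

/-- exchange of `x` and `y` -/
def sw (d : ℕ) : Mon d ≃ Mon d where
  toFun m := ⟨(m.1.2, m.1.1), (Nat.add_comm _ _).trans_le m.2⟩
  invFun m := ⟨(m.1.2, m.1.1), (Nat.add_comm _ _).trans_le m.2⟩
  left_inv m := by simp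
  right_inv m := by simp

lemma ux_inj (d : ℕ) : Function.Injective (ux d) := by
  intro i j h
  have := congrArg (fun m : Mon d => m.1.1) h
  exact this

lemma mem_range_ux {d : ℕ} (m : Mon d) (hm : m.1.2 = 0) : ux d m.1.1 = m := by
  apply Subtype.ext
  exact Prod.ext rfl hm.symm

lemma card_rest (d : ℕ) :
    (Finset.univ.filter fun m : Mon d => m.1.2 ≠ 0).card + (d + 1) = Fintype.card (Mon d) := by
  have h1 : (Finset.univ.filter fun m : Mon d => m.1.2 = 0).card = d + 1 := by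
    have h2 : (Finset.univ.filter fun m : Mon d => m.1.2 = 0) = Finset.univ.image (ux d) := by
      ext m
      rw [Finset.mem_filter, Finset.mem_image]
      constructor
      · rintro ⟨-, h⟩
        exact ⟨m.1.1, Finset.mem_univ _, mem_range_ux m h⟩
      · rintro ⟨i, -, rfl⟩
        exact ⟨Finset.mem_univ _, rfl⟩
    rw [h2, Finset.card_image_of_injective _ (ux_inj d), Finset.card_univ, Fintype.card_fin]
  have h3 := Finset.card_filter_add_card_filter_not (s := (Finset.univ : Finset (Mon d)))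
    (fun m : Mon d => m.1.2 = 0)
  rw [Finset.card_univ, h1] at h3
  have h4 : (Finset.univ.filter fun m : Mon d => m.1.2 ≠ 0) =
    (Finset.univ.filter fun m : Mon d => ¬ m.1.2 = 0) := rfl
  rw [h4]
  omega

/-- the polynomial in `y` -/
noncomputable def fy (d : ℕ) (b : Mon d → ℤ) (x : ℤ) : ℤ[X] :=
  -∑ m : Mon d, C (b m * x ^ (m.1.1 : ℕ)) * X ^ (m.1.2 : ℕ)

lemma fy_eval (d : ℕ) (b : Mon d → ℤ) (x y : ℤ) : (fy d b x).eval y = -val d b x y := by
  unfold fy val
  rw [eval_neg, eval_finsetSum]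
  congr 1
  refine Finset.sum_congr rfl fun m _ => ?_
  simp [eval_mul, eval_pow]

lemma fy_degree {d : ℕ} (b : Mon d → ℤ) (x : ℤ) (hb : b (my d) ≠ 0) :
    (fy d b x).natDegree = d := by
  apply natDegree_eq_of_le_of_coeff_ne_zero
  · unfold fy
    rw [natDegree_neg]
    refine natDegree_sum_le_of_forall_le _ _ fun m _ => ?_
    refine (natDegree_C_mul_X_pow_le _ _).trans ?_
    have := m.2
    omega
  · unfold fy
    rw [coeff_neg, finsetSum_coeff, Finset.sum_eq_single (my d)]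
    · rw [coeff_C_mul_X_pow]
      simp only [my, Fin.val_zero, pow_zero, mul_one, Fin.val_last, if_true]
      exact neg_ne_zero.2 hb
    · intro m _ hm
      rw [coeff_C_mul_X_pow]
      rw [if_neg]
      intro h
      apply hm
      apply Subtype.ext
      have h1 := m.2
      refine Prod.ext (Fin.ext ?_) (Fin.ext ?_)
      · simp only [my, Fin.val_zero]
        omega
      · simp only [my, Fin.val_last]
        exact h.symm
    · intro h
      exact absurd (Finset.mem_univ _) h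

/-- **one side** -/
theorem side (d : ℕ) (hd : 2 ≤ d) {ε : ℝ} (hε : 0 < ε) : ∃ K : ℝ, 0 < K ∧
    ∀ (a : Mon d → ℤ) (H X : ℝ), 1 ≤ H → 1 ≤ X → ∀ T : Finset ((Mon d → ℤ) × ℤ × ℤ),
    (∀ p ∈ T, (∀ m, |((p.1 m - a m : ℤ) : ℝ)| ≤ H) ∧ p.1 (my d) ≠ 0 ∧ |(p.2.1 : ℝ)| ≤ X ∧
      val d p.1 p.2.1 p.2.2 = 0) →
    (T.card : ℝ) ≤ K * (H * X) ^ ε * H ^ (Fintype.card (Mon d)) *
      (H ^ (-(1 / 2) : ℝ) + H ^ (-((d : ℝ) + 1) / 2) * X) := by
  obtain ⟨K, hK, hfam⟩ := family d d hd hε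
  set n' : ℕ := (Finset.univ.filter fun m : Mon d => m.1.2 ≠ 0).card with hn'
  refine ⟨3 ^ n' * (d * K), by positivity, ?_⟩
  intro a H X hH hX T hT
  have hH0 : 0 < H := by linarith
  have hX0 : 0 < X := by linarith
  set N : ℕ := ⌊H⌋₊ with hN
  have hNH : (N : ℝ) ≤ H := Nat.floor_le hH0.le
  let lab : ((Mon d → ℤ) × ℤ × ℤ) → (Mon d → ℤ) := fun p m => if m.1.2 = 0 then a m else p.1 m
  let Lb : Finset (Mon d → ℤ) := Fintype.piFinset fun m : Mon d =>
    if m.1.2 = 0 then {a m} else Finset.Icc (a m - N) (a m + N)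
  have hlab : ∀ p ∈ T, lab p ∈ Lb := by
    intro p hp
    rw [Fintype.mem_piFinset]
    intro m
    simp only [lab]
    by_cases hm : m.1.2 = 0
    · rw [if_pos hm, if_pos hm, Finset.mem_singleton]
    · rw [if_neg hm, if_neg hm, Finset.mem_Icc]
      have h1 := (hT p hp).1 m
      have h2 : |p.1 m - a m| ≤ (N : ℤ) := by
        have e5 : ((|p.1 m - a m|.toNat : ℤ) : ℝ) = |((p.1 m - a m : ℤ) : ℝ)| := by
          rw [Int.toNat_of_nonneg (abs_nonneg _)]
          push_cast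
          rfl
        rw [← e5] at h1
        have e4 : ((|p.1 m - a m|.toNat : ℕ) : ℝ) ≤ H := by exact_mod_cast h1
        have e6 := Nat.le_floor e4
        rw [← hN] at e6
        have e7 := Int.self_le_toNat (|p.1 m - a m|)
        have e8 : ((|p.1 m - a m|.toNat : ℕ) : ℤ) ≤ N := by exact_mod_cast e6
        linarith
      have h3 := abs_le.1 h2
      constructor <;> linarith [h3.1, h3.2]
  have hLb : (Lb.card : ℝ) ≤ 3 ^ n' * H ^ n' := by
    have h1 : Lb.card = (2 * N + 1) ^ n' := by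
      rw [Fintype.card_piFinset, hn', ← Finset.prod_const, Finset.prod_filter]
      refine Finset.prod_congr rfl fun m _ => ?_
      by_cases hm : m.1.2 = 0
      · rw [if_pos hm, if_neg (not_not.2 hm), Finset.card_singleton]
      · rw [if_neg hm, if_pos hm, Int.card_Icc]
        omega
    rw [h1]
    push_cast
    rw [← mul_pow]
    exact pow_le_pow_left₀ (by positivity) (by linarith) _
  -- one label
  have hone : ∀ b ∈ Lb, ((T.filter fun p => lab p = b).card : ℝ) ≤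
      d * (K * (H * X) ^ ε * (H ^ ((d : ℝ) + 1 / 2) + H ^ (((d : ℝ) + 1) / 2) * X)) := by
    intro b _
    set Tb := T.filter fun p => lab p = b with hTb
    let φ : ((Mon d → ℤ) × ℤ × ℤ) → (Fin (d + 1) → ℤ) × ℤ :=
      fun p => (fun i => p.1 (ux d i) - a (ux d i), p.2.1)
    have hc : ∀ p ∈ Tb, ∀ m : Mon d, m.1.2 ≠ 0 → p.1 m = b m := by
      intro p hp m hm
      have h1 := congrFun (Finset.mem_filter.1 hp).2 m
      simp only [lab, if_neg hm] at h1
      exact h1
    have hb0 : ∀ p ∈ Tb, ∀ m : Mon d, m.1.2 = 0 → b m = a m := by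
      intro p hp m hm
      have h1 := congrFun (Finset.mem_filter.1 hp).2 m
      simp only [lab, if_pos hm] at h1
      exact h1.symm
    have hmy : (my d).1.2 ≠ 0 := by
      simp only [my]
      intro h
      have := congrArg Fin.val h
      simp at this
      omega
    have hbmy : ∀ p ∈ Tb, b (my d) ≠ 0 := by
      intro p hp
      rw [← hc p hp _ hmy]
      exact (hT p (Finset.mem_filter.1 hp).1).2.1
    have hval : ∀ p ∈ Tb, (fy d b p.2.1).eval p.2.2 =
        ∑ i : Fin (d + 1), (p.1 (ux d i) - a (ux d i)) * p.2.1 ^ (i : ℕ) := by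
      intro p hp
      have h1 := (hT p (Finset.mem_filter.1 hp).1).2.2.2
      rw [fy_eval]
      have h2 : ∑ i : Fin (d + 1), (p.1 (ux d i) - a (ux d i)) * p.2.1 ^ (i : ℕ) =
          ∑ m : Mon d, (p.1 m - b m) * p.2.1 ^ (m.1.1 : ℕ) * p.2.2 ^ (m.1.2 : ℕ) := by
        refine Finset.sum_of_injOn (ux d) (fun i _ j _ h => ux_inj d h)
          (fun i _ => Finset.mem_coe.2 (Finset.mem_univ _)) ?_ ?_
        · intro m _ hm
          have hm0 : m.1.2 ≠ 0 := by
            intro h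
            apply hm
            exact ⟨m.1.1, Finset.mem_coe.2 (Finset.mem_univ _), mem_range_ux m h⟩
          rw [hc p hp m hm0, sub_self, zero_mul, zero_mul]
        · intro i _
          rw [hb0 p hp (ux d i) rfl]
          simp [ux]
      rw [h2]
      have h3 : ∑ m : Mon d, (p.1 m - b m) * p.2.1 ^ (m.1.1 : ℕ) * p.2.2 ^ (m.1.2 : ℕ) =
          val d p.1 p.2.1 p.2.2 - val d b p.2.1 p.2.2 := by
        unfold val
        rw [← Finset.sum_sub_distrib]
        exact Finset.sum_congr rfl fun m _ => by ring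
      rw [h3, h1]
      ring
    have hP := hfam H X hH hX (fun x => fy d b x) (Tb.image φ) (by
      intro q hq
      obtain ⟨p, hp, rfl⟩ := Finset.mem_image.1 hq
      have h1 := hT p (Finset.mem_filter.1 hp).1
      have h2 := fy_degree b p.2.1 (hbmy p hp)
      refine ⟨fun i => h1.1 _, h1.2.2.1, ?_, ?_, p.2.2, hval p hp⟩
      · change 2 ≤ (fy d b p.2.1).natDegree
        omega
      · change (fy d b p.2.1).natDegree ≤ d
        omega)
    have hfib : Tb.card ≤ d * (Tb.image φ).card := by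
      refine Finset.card_le_mul_card_image Tb d ?_
      intro q hq
      obtain ⟨p₀, hp₀, rfl⟩ := Finset.mem_image.1 hq
      set R : ℤ[X] := fy d b p₀.2.1 -
        C (∑ i : Fin (d + 1), (p₀.1 (ux d i) - a (ux d i)) * p₀.2.1 ^ (i : ℕ)) with hR
      have hRdeg : R.natDegree = d := by
        rw [hR, natDegree_sub_C]
        exact fy_degree b _ (hbmy p₀ hp₀)
      have hR0 : R ≠ 0 := by
        intro h
        rw [h, natDegree_zero] at hRdeg
        omega
      have hinj : Set.InjOn (fun p : (Mon d → ℤ) × ℤ × ℤ => p.2.2)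
          (↑(Tb.filter fun p => φ p = φ p₀) : Set ((Mon d → ℤ) × ℤ × ℤ)) := by
        intro p hp p' hp' h
        rw [Finset.mem_coe, Finset.mem_filter] at hp hp'
        have h1 : φ p = φ p' := hp.2.trans hp'.2.symm
        have h2 : p.2.1 = p'.2.1 := congrArg Prod.snd h1
        have h3 : p.1 = p'.1 := by
          funext m
          by_cases hm : m.1.2 = 0
          · have h4 := congrFun (congrArg Prod.fst h1) m.1.1
            simp only [φ] at h4
            rw [mem_range_ux m hm] at h4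
            linarith
          · rw [hc p hp.1 m hm, hc p' hp'.1 m hm]
        exact Prod.ext h3 (Prod.ext h2 h)
      rw [← Finset.card_image_of_injOn hinj]
      have hsub : (Tb.filter fun p => φ p = φ p₀).image (fun p => p.2.2) ⊆ R.roots.toFinset := by
        intro y hy
        obtain ⟨p, hp, rfl⟩ := Finset.mem_image.1 hy
        rw [Finset.mem_filter] at hp
        rw [Multiset.mem_toFinset, mem_roots hR0]
        change R.eval p.2.2 = 0
        have h2 : p.2.1 = p₀.2.1 := congrArg Prod.snd hp.2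
        have h3 := hval p hp.1
        have h4 : ∀ i, p.1 (ux d i) - a (ux d i) = p₀.1 (ux d i) - a (ux d i) :=
          fun i => congrFun (congrArg Prod.fst hp.2) i
        rw [hR, eval_sub, eval_C, ← h2, h3]
        rw [Finset.sum_congr rfl fun i _ => by rw [h4 i], sub_self]
      exact (Finset.card_le_card hsub).trans ((Multiset.toFinset_card_le _).trans
        ((card_roots' R).trans hRdeg.le))
    calc (Tb.card : ℝ) ≤ d * ((Tb.image φ).card : ℝ) := by exact_mod_cast hfib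
      _ ≤ _ := mul_le_mul_of_nonneg_left hP (by positivity)
  have hsum : (T.card : ℝ) = ∑ b ∈ Lb, ((T.filter fun p => lab p = b).card : ℝ) := by
    rw [Finset.card_eq_sum_card_fiberwise hlab]
    push_cast
    rfl
  set W : ℝ := d * (K * (H * X) ^ ε * (H ^ ((d : ℝ) + 1 / 2) + H ^ (((d : ℝ) + 1) / 2) * X)) with hW
  have hW0 : 0 ≤ W := by positivity
  have hcard := card_rest d
  rw [← hn'] at hcard
  have f1 : H ^ n' * H ^ ((d : ℝ) + 1 / 2) = H ^ (Fintype.card (Mon d)) * H ^ (-(1 / 2) : ℝ) := by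
    rw [← hcard, ← Real.rpow_natCast H n', ← Real.rpow_natCast H (n' + (d + 1)),
      ← Real.rpow_add hH0, ← Real.rpow_add hH0]
    congr 1
    push_cast
    ring
  have f2 : H ^ n' * H ^ (((d : ℝ) + 1) / 2) =
      H ^ (Fintype.card (Mon d)) * H ^ (-((d : ℝ) + 1) / 2) := by
    rw [← hcard, ← Real.rpow_natCast H n', ← Real.rpow_natCast H (n' + (d + 1)),
      ← Real.rpow_add hH0, ← Real.rpow_add hH0]
    congr 1
    push_cast
    ring
  calc (T.card : ℝ) = ∑ b ∈ Lb, ((T.filter fun p => lab p = b).card : ℝ) := hsum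
    _ ≤ ∑ b ∈ Lb, W := Finset.sum_le_sum hone
    _ = (Lb.card : ℝ) * W := by rw [Finset.sum_const, nsmul_eq_mul]
    _ ≤ (3 ^ n' * H ^ n') * W := mul_le_mul_of_nonneg_right hLb hW0
    _ = 3 ^ n' * (d * K) * (H * X) ^ ε * (H ^ n' * H ^ ((d : ℝ) + 1 / 2) +
        (H ^ n' * H ^ (((d : ℝ) + 1) / 2)) * X) := by rw [hW]; ring
    _ = _ := by rw [f1, f2]; ring

/-- **both sides** -/
theorem box (d : ℕ) (hd : 2 ≤ d) {ε : ℝ} (hε : 0 < ε) : ∃ K : ℝ, 0 < K ∧
    ∀ (a : Mon d → ℤ) (H X : ℝ), 1 ≤ H → 1 ≤ X → ∀ T : Finset ((Mon d → ℤ) × ℤ × ℤ),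
    (∀ p ∈ T, (∀ m, |((p.1 m - a m : ℤ) : ℝ)| ≤ H) ∧ p.1 (ux d (Fin.last d)) ≠ 0 ∧
      p.1 (my d) ≠ 0 ∧ (|(p.2.1 : ℝ)| ≤ X ∨ |(p.2.2 : ℝ)| ≤ X) ∧
      val d p.1 p.2.1 p.2.2 = 0) →
    (T.card : ℝ) ≤ K * (H * X) ^ ε * H ^ (Fintype.card (Mon d)) *
      (H ^ (-(1 / 2) : ℝ) + H ^ (-((d : ℝ) + 1) / 2) * X) := by
  obtain ⟨K, hK, h⟩ := side d hd hε
  refine ⟨2 * K, by positivity, fun a H X hH hX T hT => ?_⟩
  set T₁ := T.filter fun p => |(p.2.1 : ℝ)| ≤ X with hT₁
  set T₂ := T.filter fun p => |(p.2.2 : ℝ)| ≤ X with hT₂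
  have h1 := h a H X hH hX T₁ (by
    intro p hp
    rw [hT₁, Finset.mem_filter] at hp
    obtain ⟨g1, -, g3, -, g5⟩ := hT p hp.1
    exact ⟨g1, g3, hp.2, g5⟩)
  let ψ : ((Mon d → ℤ) × ℤ × ℤ) → ((Mon d → ℤ) × ℤ × ℤ) := fun p => (p.1 ∘ sw d, p.2.2, p.2.1)
  have hψ : Function.Injective ψ := by
    intro p q hpq
    have e1 : p.1 ∘ sw d = q.1 ∘ sw d := congrArg Prod.fst hpq
    have e2 : p.2.2 = q.2.2 := congrArg (fun z => z.2.1) hpq
    have e3 : p.2.1 = q.2.1 := congrArg (fun z => z.2.2) hpq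
    have e4 : p.1 = q.1 := (sw d).surjective.injective_comp_right e1
    exact Prod.ext e4 (Prod.ext e3 e2)
  have h2 := h (a ∘ sw d) H X hH hX (T₂.image ψ) (by
    intro q hq
    obtain ⟨p, hp, rfl⟩ := Finset.mem_image.1 hq
    rw [hT₂, Finset.mem_filter] at hp
    obtain ⟨g1, g2, -, -, g5⟩ := hT p hp.1
    refine ⟨fun m => g1 (sw d m), g2, hp.2, ?_⟩
    rw [← g5]
    unfold val
    rw [← Equiv.sum_comp (sw d) (fun m => p.1 m * p.2.1 ^ (m.1.1 : ℕ) * p.2.2 ^ (m.1.2 : ℕ))]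
    refine Finset.sum_congr rfl fun m _ => ?_
    simp only [ψ, sw, Equiv.coe_fn_mk, Function.comp]
    ring)
  rw [Finset.card_image_of_injective _ hψ] at h2
  have h3 : T ⊆ T₁ ∪ T₂ := by
    intro p hp
    rw [Finset.mem_union, hT₁, hT₂, Finset.mem_filter, Finset.mem_filter]
    rcases (hT p hp).2.2.2.1 with g | g
    · exact Or.inl ⟨hp, g⟩
    · exact Or.inr ⟨hp, g⟩
  have h4 : (T.card : ℝ) ≤ T₁.card + T₂.card := by
    exact_mod_cast (Finset.card_le_card h3).trans (Finset.card_union_le _ _)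
  have h5 : 2 * K * (H * X) ^ ε * H ^ (Fintype.card (Mon d)) *
      (H ^ (-(1 / 2) : ℝ) + H ^ (-((d : ℝ) + 1) / 2) * X) = 2 * (K * (H * X) ^ ε *
      H ^ (Fintype.card (Mon d)) * (H ^ (-(1 / 2) : ℝ) + H ^ (-((d : ℝ) + 1) / 2) * X)) := by ring
  rw [h5]
  linarith

/-- the number of coefficient vectors in the box with a given zero coefficient -/
lemma card_zero (d : ℕ) (a : Mon d → ℤ) (H : ℝ) (hH : 1 ≤ H) (m₀ : Mon d)
    (T : Finset (Mon d → ℤ)) (hT : ∀ c ∈ T, (∀ m, |((c m - a m : ℤ) : ℝ)| ≤ H) ∧ c m₀ = 0) :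
    (T.card : ℝ) ≤ 3 ^ (Fintype.card (Mon d)) * (H ^ (Fintype.card (Mon d)) * H⁻¹) := by
  have hH0 : 0 < H := by linarith
  set N : ℕ := ⌊H⌋₊ with hN
  have hNH : (N : ℝ) ≤ H := Nat.floor_le hH0.le
  have h1 : T ⊆ Fintype.piFinset fun m : Mon d =>
      if m = m₀ then {0} else Finset.Icc (a m - N) (a m + N) := by
    intro c hc
    rw [Fintype.mem_piFinset]
    intro m
    by_cases hm : m = m₀
    · rw [if_pos hm, Finset.mem_singleton, hm]
      exact (hT c hc).2
    · rw [if_neg hm, Finset.mem_Icc]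
      have h1 := (hT c hc).1 m
      have h2 : |c m - a m| ≤ (N : ℤ) := by
        have e5 : ((|c m - a m|.toNat : ℤ) : ℝ) = |((c m - a m : ℤ) : ℝ)| := by
          rw [Int.toNat_of_nonneg (abs_nonneg _)]
          push_cast
          rfl
        rw [← e5] at h1
        have e4 : ((|c m - a m|.toNat : ℕ) : ℝ) ≤ H := by exact_mod_cast h1
        have e6 := Nat.le_floor e4
        rw [← hN] at e6
        have e7 := Int.self_le_toNat (|c m - a m|)
        have e8 : ((|c m - a m|.toNat : ℕ) : ℤ) ≤ N := by exact_mod_cast e6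
        linarith
      have h3 := abs_le.1 h2
      constructor <;> linarith [h3.1, h3.2]
  have h2 := Finset.card_le_card h1
  have h3 : (Fintype.piFinset fun m : Mon d =>
      if m = m₀ then ({0} : Finset ℤ) else Finset.Icc (a m - N) (a m + N)).card =
      (2 * N + 1) ^ (Fintype.card (Mon d) - 1) := by
    rw [Fintype.card_piFinset, ← Finset.mul_prod_erase _ _ (Finset.mem_univ m₀), if_pos rfl,
      Finset.card_singleton, one_mul]
    have h4 : ∀ m ∈ Finset.univ.erase m₀, (if m = m₀ then ({0} : Finset ℤ) else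
        Finset.Icc (a m - N) (a m + N)).card = 2 * N + 1 := by
      intro m hm
      rw [if_neg (Finset.ne_of_mem_erase hm), Int.card_Icc]
      omega
    rw [Finset.prod_congr rfl h4, Finset.prod_const, Finset.card_erase_of_mem (Finset.mem_univ _),
      Finset.card_univ]
  rw [h3] at h2
  have hpos : 0 < Fintype.card (Mon d) := Fintype.card_pos_iff.2 ⟨m₀⟩
  obtain ⟨n, hn⟩ : ∃ n, Fintype.card (Mon d) = n + 1 := ⟨Fintype.card (Mon d) - 1, by omega⟩
  rw [hn, Nat.add_sub_cancel] at h2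
  rw [hn]
  have h5 : (T.card : ℝ) ≤ (2 * (N : ℝ) + 1) ^ n := by exact_mod_cast h2
  have h6 : (2 * (N : ℝ) + 1) ^ n ≤ (3 * H) ^ n := pow_le_pow_left₀ (by positivity) (by linarith) _
  have h7 : (3 * H) ^ n ≤ 3 ^ (n + 1) * (H ^ (n + 1) * H⁻¹) := by
    rw [mul_pow, pow_succ H, mul_assoc, mul_inv_cancel₀ hH0.ne', mul_one]
    refine mul_le_mul_of_nonneg_right ?_ (by positivity)
    exact pow_le_pow_right₀ (by norm_num) (by omega)
  exact h5.trans (h6.trans h7)

/-- **almost all polynomials in the box** -/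
theorem almost (d : ℕ) (hd : 2 ≤ d) {δ : ℝ} (hδ : 0 < δ) : ∃ η : ℝ, 0 < η ∧ ∃ K : ℝ, 0 < K ∧
    ∀ (a : Mon d → ℤ) (H : ℝ), 1 ≤ H → ∀ T : Finset (Mon d → ℤ),
    (∀ c ∈ T, (∀ m, |((c m - a m : ℤ) : ℝ)| ≤ H) ∧ ∃ x y : ℤ,
      (|(x : ℝ)| ≤ H ^ (((d : ℝ) + 1) / 2 - δ) ∨ |(y : ℝ)| ≤ H ^ (((d : ℝ) + 1) / 2 - δ)) ∧
      val d c x y = 0) →
    (T.card : ℝ) ≤ K * H ^ ((Fintype.card (Mon d) : ℝ) - η) := by
  set μ : ℝ := min (1 / 2) δ with hμ
  have hμ0 : 0 < μ := lt_min (by norm_num) hδ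
  have hμ1 : μ ≤ 1 / 2 := min_le_left _ _
  have hμδ : μ ≤ δ := min_le_right _ _
  set ε : ℝ := μ / ((d : ℝ) + 3) with hε
  have hd0 : (0 : ℝ) ≤ d := Nat.cast_nonneg d
  have hε0 : 0 < ε := by positivity
  obtain ⟨K, hK, h⟩ := box d hd hε0
  refine ⟨μ / 2, by positivity, 2 * K + 2 * 3 ^ (Fintype.card (Mon d)), by positivity, ?_⟩
  intro a H hH T hT
  have hH0 : 0 < H := by linarith
  set E : ℝ := ((d : ℝ) + 1) / 2 with hE
  set X : ℝ := max 1 (H ^ (E - δ)) with hX
  have hX1 : 1 ≤ X := le_max_left _ _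
  have hX0 : 0 < X := by linarith
  have hXE : X ≤ H ^ E := max_le (Real.one_le_rpow hH (by positivity))
    (Real.rpow_le_rpow_of_exponent_le hH (by linarith))
  have hXμ : H ^ (-((d : ℝ) + 1) / 2) * X ≤ H ^ (-μ) := by
    have e1 : -((d : ℝ) + 1) / 2 = -E := by rw [hE]; ring
    rw [e1]
    rcases le_total 1 (H ^ (E - δ)) with g | g
    · rw [hX, max_eq_right g, ← Real.rpow_add hH0]
      exact Real.rpow_le_rpow_of_exponent_le hH (by linarith)
    · rw [hX, max_eq_left g, mul_one]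
      refine Real.rpow_le_rpow_of_exponent_le hH ?_
      have : (2 : ℝ) ≤ d := by exact_mod_cast hd
      rw [hE]
      linarith
  set n := Fintype.card (Mon d) with hn
  set m₁ : Mon d := ux d (Fin.last d) with hm₁
  set m₂ : Mon d := my d with hm₂
  set T₁ := T.filter fun c => c m₁ = 0 with hT₁
  set T₂ := T.filter fun c => c m₂ = 0 with hT₂
  set T₃ := T.filter fun c => c m₁ ≠ 0 ∧ c m₂ ≠ 0 with hT₃
  have b1 := card_zero d a H hH m₁ T₁ (by
    intro c hc
    rw [hT₁, Finset.mem_filter] at hc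
    exact ⟨(hT c hc.1).1, hc.2⟩)
  have b2 := card_zero d a H hH m₂ T₂ (by
    intro c hc
    rw [hT₂, Finset.mem_filter] at hc
    exact ⟨(hT c hc.1).1, hc.2⟩)
  have hex : ∀ c ∈ T₃, ∃ q : ℤ × ℤ, (|(q.1 : ℝ)| ≤ X ∨ |(q.2 : ℝ)| ≤ X) ∧ val d c q.1 q.2 = 0 := by
    intro c hc
    obtain ⟨-, x, y, h1, h2⟩ := hT c (Finset.mem_filter.1 hc).1
    refine ⟨(x, y), ?_, h2⟩
    rcases h1 with h1 | h1
    · exact Or.inl (h1.trans (le_max_right _ _))
    · exact Or.inr (h1.trans (le_max_right _ _))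
  choose! q hq1 hq2 using hex
  have b3 := h a H X hH hX1 (T₃.image fun c => (c, q c)) (by
    intro p hp
    obtain ⟨c, hc, rfl⟩ := Finset.mem_image.1 hp
    have hc' := Finset.mem_filter.1 hc
    exact ⟨(hT c hc'.1).1, hc'.2.1, hc'.2.2, hq1 c hc, hq2 c hc⟩)
  rw [Finset.card_image_of_injective _ (fun c c' hcc => congrArg Prod.fst hcc)] at b3
  have hsub : T ⊆ T₃ ∪ (T₁ ∪ T₂) := by
    intro c hc
    rw [Finset.mem_union, Finset.mem_union, hT₁, hT₂, hT₃, Finset.mem_filter, Finset.mem_filter,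
      Finset.mem_filter]
    tauto
  have hcard : (T.card : ℝ) ≤ T₃.card + (T₁.card + T₂.card) := by
    exact_mod_cast (Finset.card_le_card hsub).trans ((Finset.card_union_le _ _).trans
      (Nat.add_le_add_left (Finset.card_union_le _ _) _))
  have hnn : H ^ n = H ^ (n : ℝ) := (Real.rpow_natCast H n).symm
  have c1 : H ^ n * H⁻¹ ≤ H ^ ((n : ℝ) - μ / 2) := by
    rw [hnn, ← Real.rpow_neg_one, ← Real.rpow_add hH0]
    exact Real.rpow_le_rpow_of_exponent_le hH (by linarith)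
  have c2 : (H * X) ^ ε ≤ H ^ (μ / 2) := by
    calc (H * X) ^ ε ≤ (H ^ (E + 1)) ^ ε := by
          refine Real.rpow_le_rpow (by positivity) ?_ hε0.le
          rw [Real.rpow_add hH0, Real.rpow_one, mul_comm H X]
          exact mul_le_mul_of_nonneg_right hXE hH0.le
      _ = H ^ ((E + 1) * ε) := by rw [← Real.rpow_mul hH0.le]
      _ = H ^ (μ / 2) := by
          congr 1
          rw [hE, hε]
          field_simp
          ring
  have c3 : H ^ (-(1 / 2) : ℝ) + H ^ (-((d : ℝ) + 1) / 2) * X ≤ 2 * H ^ (-μ) := by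
    have g1 : H ^ (-(1 / 2) : ℝ) ≤ H ^ (-μ) := Real.rpow_le_rpow_of_exponent_le hH (by linarith)
    linarith
  have c4 : K * (H * X) ^ ε * H ^ n * (H ^ (-(1 / 2) : ℝ) + H ^ (-((d : ℝ) + 1) / 2) * X) ≤
      2 * K * H ^ ((n : ℝ) - μ / 2) := by
    calc K * (H * X) ^ ε * H ^ n * (H ^ (-(1 / 2) : ℝ) + H ^ (-((d : ℝ) + 1) / 2) * X) ≤
        K * H ^ (μ / 2) * H ^ n * (2 * H ^ (-μ)) := by
          refine mul_le_mul ?_ c3 (by positivity) (by positivity)
          exact mul_le_mul_of_nonneg_right (mul_le_mul_of_nonneg_left c2 hK.le) (by positivity)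
      _ = 2 * K * (H ^ (μ / 2) * H ^ (n : ℝ) * H ^ (-μ)) := by rw [hnn]; ring
      _ = _ := by
          rw [← Real.rpow_add hH0, ← Real.rpow_add hH0]
          congr 2
          ring
  have c5 : (3 : ℝ) ^ n * (H ^ n * H⁻¹) ≤ 3 ^ n * H ^ ((n : ℝ) - μ / 2) :=
    mul_le_mul_of_nonneg_left c1 (by positivity)
  have c6 : (2 * K + 2 * 3 ^ n) * H ^ ((n : ℝ) - μ / 2) = 2 * K * H ^ ((n : ℝ) - μ / 2) +
      (3 ^ n * H ^ ((n : ℝ) - μ / 2) + 3 ^ n * H ^ ((n : ℝ) - μ / 2)) := by ring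
  rw [c6]
  linarith

end Pool.Agent.R366.HF
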