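import Mathlib
import Pool.Agent.R366.HF.Fam

set_option autoImplicit false

/-!
# Integral points on `F(x, y) = h(x)`
-/

namespace Pool.Agent.R366.HF

open Pool.Agent.R366.HE
open Polynomial
open scoped Classical Polynomial.Bivariate

/-- **`F` arbitrary, `h` small** -/
theorem pert (k e : ℕ) (hk : 2 ≤ k) {ε : ℝ} (hε : 0 < ε) : ∃ K : ℝ, 0 < K ∧
    ∀ (F : ℤ[X][Y]), F.natDegree ≤ e → ∀ (H X : ℝ), 1 ≤ H → 1 ≤ X →
    ∀ T : Finset ((Fin (k + 1) → ℤ) × ℤ × ℤ),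
    (∀ p ∈ T, (∀ i, |(p.1 i : ℝ)| ≤ H) ∧ |(p.2.1 : ℝ)| ≤ X ∧
      2 ≤ (F.map (evalRingHom p.2.1)).natDegree ∧
      F.evalEval p.2.1 p.2.2 = ∑ i : Fin (k + 1), p.1 i * p.2.1 ^ (i : ℕ)) →
    (T.card : ℝ) ≤ K * (H * X) ^ ε * (H ^ ((k : ℝ) + 1 / 2) + H ^ (((k : ℝ) + 1) / 2) * X) := by
  obtain ⟨K, hK, hfam⟩ := family k e hk hε
  refine ⟨(e + 1) * K, by positivity, fun F hF H X hH hX T hT => ?_⟩
  let φ : ((Fin (k + 1) → ℤ) × ℤ × ℤ) → (Fin (k + 1) → ℤ) × ℤ := fun p => (p.1, p.2.1)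
  have hde : ∀ x : ℤ, (F.map (evalRingHom x)).natDegree ≤ e := fun x =>
    (natDegree_map_le).trans hF
  have h1 := hfam H X hH hX (fun x => F.map (evalRingHom x)) (T.image φ) (by
    intro q hq
    obtain ⟨p, hp, rfl⟩ := Finset.mem_image.1 hq
    obtain ⟨g1, g2, g3, g4⟩ := hT p hp
    refine ⟨g1, g2, g3, hde _, p.2.2, ?_⟩
    change (F.map (evalRingHom p.2.1)).eval p.2.2 = _
    rw [map_evalRingHom_eval]
    exact g4)
  have hfib : T.card ≤ (e + 1) * (T.image φ).card := by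
    refine Finset.card_le_mul_card_image T (e + 1) ?_
    intro q hq
    obtain ⟨p₀, hp₀, rfl⟩ := Finset.mem_image.1 hq
    set R : ℤ[X] := F.map (evalRingHom p₀.2.1) - C (∑ i : Fin (k + 1), p₀.1 i * p₀.2.1 ^ (i : ℕ))
      with hR
    have hRdeg : R.natDegree = (F.map (evalRingHom p₀.2.1)).natDegree := by
      rw [hR, natDegree_sub_C]
    have hR0 : R ≠ 0 := by
      intro h
      rw [h, natDegree_zero] at hRdeg
      have := (hT p₀ hp₀).2.2.1
      omega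
    have hinj : Set.InjOn (fun p : (Fin (k + 1) → ℤ) × ℤ × ℤ => p.2.2)
        (↑(T.filter fun p => φ p = φ p₀) : Set ((Fin (k + 1) → ℤ) × ℤ × ℤ)) := by
      intro p hp p' hp' h
      rw [Finset.mem_coe, Finset.mem_filter] at hp hp'
      have h1 : φ p = φ p' := hp.2.trans hp'.2.symm
      have h2 : p.1 = p'.1 := (Prod.mk.inj h1).1
      have h3 : p.2.1 = p'.2.1 := (Prod.mk.inj h1).2
      exact Prod.ext h2 (Prod.ext h3 h)
    rw [← Finset.card_image_of_injOn hinj]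
    have hsub : (T.filter fun p => φ p = φ p₀).image (fun p => p.2.2) ⊆ R.roots.toFinset := by
      intro y hy
      obtain ⟨p, hp, rfl⟩ := Finset.mem_image.1 hy
      rw [Finset.mem_filter] at hp
      rw [Multiset.mem_toFinset, mem_roots hR0]
      change R.eval p.2.2 = 0
      have h2 : p.2.1 = p₀.2.1 := (Prod.mk.inj hp.2).2
      have h3 : p.1 = p₀.1 := (Prod.mk.inj hp.2).1
      have h4 := (hT p hp.1).2.2.2
      rw [hR, eval_sub, eval_C, map_evalRingHom_eval, ← h2, ← h3, h4, sub_self]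
    exact (Finset.card_le_card hsub).trans ((Multiset.toFinset_card_le _).trans
      ((card_roots' R).trans (hRdeg.le.trans ((hde _).trans (by omega)))))
  calc (T.card : ℝ) ≤ (e + 1) * ((T.image φ).card : ℝ) := by exact_mod_cast hfib
    _ ≤ (e + 1) * (K * (H * X) ^ ε * (H ^ ((k : ℝ) + 1 / 2) + H ^ (((k : ℝ) + 1) / 2) * X)) :=
        mul_le_mul_of_nonneg_left h1 (by positivity)
    _ = _ := by ring

end Pool.Agent.R366.HF
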